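import Pool.Agent.H84.S2.Tg
import Pool.Agent.H70.SF.DSO

/-!
Row NFR of the board s2l_modules (`MP_70ba79_ag`, THEOREM S, part 2): the frame at a node.
-/

set_option autoImplicit false

namespace Pool.Agent.H98.S2

open MvPolynomial SC
open Pool.Agent.H27.LV (ge deg poleOrder canDeg)
open Pool.Agent.H84.SM (cr dt dp)
open Pool.Agent.H3.SF (Itg Bb BB Hm eu grd hes Sfc Crd Cnn Crf Prm nv)
open Pool.Agent.H84.SF Pool.Agent.H3.S2 Pool.Agent.H84.S2

/-- a nondegenerate binary quadratic form is a product of two independent linear forms -/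
theorem factor (k : Type) [Field k] [IsAlgClosed k] [CharZero k] (a b c : k)
    (h : b ^ 2 - 4 * a * c ≠ 0) : ∃ p q r t : k, p * t - q * r ≠ 0 ∧ p * r = a ∧
      p * t + q * r = b ∧ q * t = c := by
  by_cases ha : a = 0
  · subst ha
    have hb : b ≠ 0 := by
      rintro rfl
      exact h (by ring)
    refine ⟨0, 1, b, c, ?_, by ring, by ring, by ring⟩
    rw [zero_mul, zero_sub, one_mul]
    exact neg_ne_zero.mpr hb
  · obtain ⟨d, hd⟩ := IsAlgClosed.exists_pow_nat_eq (b ^ 2 - 4 * a * c) (n := 2) (by norm_num)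
    have hd0 : d ≠ 0 := by
      rintro rfl
      exact h (by rw [← hd]; ring)
    have h2 : (2 : k) ≠ 0 := two_ne_zero
    refine ⟨1, (b - d) / (2 * a), a, (b + d) / 2, ?_, by ring, ?_, ?_⟩
    · have e : 1 * ((b + d) / 2) - (b - d) / (2 * a) * a = d := by
        field_simp
        ring
      rw [e]
      exact hd0
    · field_simp
      ring
    · field_simp
      linear_combination -hd

theorem pf_NFR (hNF1 : T_NF1) (hNF2 : T_NF2) (hNF3 : T_NF3) : T_NFR := by
  intro k F σ _ _ _ _ _ _ _ X u dd J j0 hY m GP hGP s hs hC hsG hN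
  obtain ⟨hnoe, L0, L1, L2, cX, cY, ε, x1, y1, dX, dY, hL2, hF⟩ :=
    hNF1 k F σ X u dd J j0 hY s hs hC hN.dim
  have hLne : aeval X L0 ≠ 0 := fun h => hF.v0 (hC.pt L0 h)
  obtain ⟨Gs, hGs⟩ := Pool.Agent.H70.SF.mkO X s L0 hF.l0 hF.v0 hLne m GP hGP
  obtain ⟨a, b, c, habc, hmem⟩ := hNF3 k F σ X dd s hs hC L0 L1 L2 cX cY ε x1 y1 dX dY hL2 hF m GP
    hGP hsG hN Gs hGs
  obtain ⟨p, q, r, t, hne, h1, h2, h3⟩ := factor k a b c habc
  obtain ⟨cX', cY', dX', dY', hF'⟩ := hNF2 k F σ X s dd L0 L1 L2 cX cY ε x1 y1 dX dY hL2 hF p q r t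
    hne
  refine ⟨hnoe, L0, p • L1 + q • L2, r • L1 + t • L2, cX', cY', ε, p • x1 + q • y1,
    r • x1 + t • y1, Gs, dX', dY', ?_, hF', hGs, ?_⟩
  · have e1 : r • L1 + t • L2 = C r * L1 + C t * L2 := by
      rw [smul_eq_C_mul, smul_eq_C_mul]
    rw [e1]
    refine IsHomogeneous.add ?_ ?_
    · have := (isHomogeneous_C σ r).mul hF.l1
      rwa [zero_add] at this
    · have := (isHomogeneous_C σ t).mul hL2
      rwa [zero_add] at this
  · have hle : Ideal.span {x1, y1} ≤ Ideal.span {p • x1 + q • y1, r • x1 + t • y1} := by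
      set I : Ideal (Os X s) := Ideal.span {p • x1 + q • y1, r • x1 + t • y1} with hI
      have m1 : p • x1 + q • y1 ∈ I := Ideal.subset_span (by simp)
      have m2 : r • x1 + t • y1 ∈ I := Ideal.subset_span (by simp)
      have hD : algebraMap k (Os X s) (p * t - q * r)⁻¹ * algebraMap k (Os X s) (p * t - q * r)
          = 1 := by
        rw [← map_mul, inv_mul_cancel₀ hne, map_one]
      rw [Ideal.span_le]
      intro z hz
      rcases hz with rfl | hz
      · have e : z = algebraMap k (Os X s) (p * t - q * r)⁻¹ *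
            (algebraMap k (Os X s) t * (p • z + q • y1) -
              algebraMap k (Os X s) q * (r • z + t • y1)) := by
          rw [Algebra.smul_def, Algebra.smul_def, Algebra.smul_def, Algebra.smul_def]
          rw [map_sub, map_mul, map_mul] at hD
          linear_combination -z * hD
        rw [SetLike.mem_coe, e]
        exact I.mul_mem_left _ (I.sub_mem (I.mul_mem_left _ m1) (I.mul_mem_left _ m2))
      · rw [Set.mem_singleton_iff] at hz
        subst hz
        have e : z = algebraMap k (Os X s) (p * t - q * r)⁻¹ *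
            (algebraMap k (Os X s) p * (r • x1 + t • z) -
              algebraMap k (Os X s) r * (p • x1 + q • z)) := by
          rw [Algebra.smul_def, Algebra.smul_def, Algebra.smul_def, Algebra.smul_def]
          rw [map_sub, map_mul, map_mul] at hD
          linear_combination -z * hD
        rw [SetLike.mem_coe, e]
        exact I.mul_mem_left _ (I.sub_mem (I.mul_mem_left _ m2) (I.mul_mem_left _ m1))
    have e2 : Gs - (p • x1 + q • y1) * (r • x1 + t • y1) =
        Gs - (a • x1 ^ 2 + b • (x1 * y1) + c • y1 ^ 2) := by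
      rw [← h1, ← h2, ← h3]
      simp only [Algebra.smul_def, map_mul, map_add]
      ring
    rw [e2]
    exact Ideal.pow_right_mono hle 3 hmem

end Pool.Agent.H98.S2
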